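import Mathlib
import Pool.Agent.R630.ML.Ct

/-!
# Malle's conjecture for `C₂ ≀ H`, `H` a commutator tower above a Galois group

`L` is any finite Galois extension of a number field `K`, `Γ = Gal(L/K)`, `A` is any finite group with
an action `φ` of `Γ`, `χ` is a character of `Γ` with values `± 1`, and `n ≥ ((3 |A| + 2)!) ^ 3`. Let `E` be
the group of all `((f, σ), ρ)` in `(A ≀ S_n) ⋊ Γ` with `∏ [f i] = 1` in the abelianization of `A` and
`sign σ = χ ρ`; it is an extension of `Γ` by the commutator subgroup `P` of `A ≀ S_n`. Let `H` be the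
group of all `(x, ρ)`, `x` in `E ≀ A_r`, `ρ` in `Γ`, such that all coordinates of `x` lie above `ρ`;
it is an extension of `Γ` by `P ≀ A_r`.

For all large `r = 8 k + 4`, Malle's conjecture, in the weak form and as an asymptotic formula, holds
over `K` for the group `C₂ ≀ H`, `H` acting on itself by multiplication.
-/

set_option autoImplicit false

open Filter

namespace Pool.Agent.Results.MP_af4c59_nt.RelativeCommutatorTowers

/-- `G ≤ S_d` is, up to a bijection `f` of `{1, ..., d}` with `H × {0, 1}`, the wreath product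
`C₂ ≀ H`: it consists of all permutations `π` for which there is `h ∈ H` such that `π` maps the block
`{x} × {0, 1}` to the block `{h x} × {0, 1}`, for all `x ∈ H`. -/
def IsC2Wreath (H : Type) [Group H] {d : ℕ} (G : Subgroup (Equiv.Perm (Fin d))) : Prop :=
  ∃ f : Fin d ≃ H × Bool, ∀ π : Equiv.Perm (Fin d), π ∈ G ↔ ∃ h : H, ∀ i, (f (π i)).1 = h * (f i).1

/-- The index of a permutation: `d` minus the number of its cycles, fixed points included. -/
def ind {d : ℕ} (g : Equiv.Perm (Fin d)) : ℕ := g.cycleType.sum - Multiset.card g.cycleType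

/-- `a(G) = 1 / min ind(g)`, the minimum over the `g ≠ 1` in `G`. -/
noncomputable def a {d : ℕ} (G : Subgroup (Equiv.Perm (Fin d))) : ℝ :=
  1 / (sInf {j : ℕ | ∃ g ∈ G, g ≠ 1 ∧ j = ind g} : ℕ)

/-- `N_{d,K}(X; G)`: the number of fields `L` between `K` and its algebraic closure, of degree `d`
over `K`, whose Galois group, acting on the embeddings, is `G` (up to numbering), and whose relative
discriminant has norm at most `X` (that is, `|d_L| ≤ X |d_K| ^ d`). -/
noncomputable def N (K : Type) [Field K] [NumberField K] (d : ℕ)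
    (G : Subgroup (Equiv.Perm (Fin d))) (X : ℝ) : ℕ :=
  Set.ncard {L : IntermediateField K (AlgebraicClosure K) |
    Module.finrank K L = d ∧
    (∃ e : (L →ₐ[K] AlgebraicClosure K) ≃ Fin d, ∀ π : Equiv.Perm (Fin d),
      π ∈ G ↔ ∃ σ : AlgebraicClosure K ≃ₐ[K] AlgebraicClosure K,
        ∀ φ : L →ₐ[K] AlgebraicClosure K, e (σ.toAlgHom.comp φ) = π (e φ)) ∧
    ∃ h : NumberField L,
      ((|@NumberField.discr L _ h| : ℤ) : ℝ) ≤ X * ((|NumberField.discr K| : ℤ) : ℝ) ^ d}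

/-- Malle's conjecture for `(K, G)`: the asymptotic formula `N_{d,K}(X; G) ~ c X ^ a(G)` (so
`b(K, G) = 1`), and the inequalities of the weak form. -/
def Malle (K : Type) [Field K] [NumberField K] (d : ℕ) (G : Subgroup (Equiv.Perm (Fin d))) :
    Prop :=
  (∃ c : ℝ, 0 < c ∧ Tendsto (fun X : ℝ => (N K d G X : ℝ) / X ^ a G) atTop (nhds c)) ∧
  (∃ c₁ : ℝ, 0 < c₁ ∧ ∃ X₀ : ℝ, ∀ X : ℝ, X₀ ≤ X → c₁ * X ^ a G ≤ N K d G X) ∧
  (∀ ε : ℝ, 0 < ε → ∃ c₂ : ℝ, 0 < c₂ ∧ ∃ X₀ : ℝ, ∀ X : ℝ, X₀ ≤ X →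
    (N K d G X : ℝ) < c₂ * X ^ (a G + ε))

/-- Malle's conjecture over `K`, with `a(G) = 1`, for all subgroups `G` of symmetric groups of the form
`C₂ ≀ H`, `H` in its regular action. -/
def MalleOrderTwo (K : Type) [Field K] [NumberField K] (H : Type) [Group H] : Prop :=
  ∀ (d : ℕ) (G : Subgroup (Equiv.Perm (Fin d))), IsC2Wreath H G → a G = 1 ∧ Malle K d G

/-- The group `C₂ ≀ H` exists, of degree `2 |H|`, and is transitive. -/
def Exists2 (H : Type) [Group H] : Prop :=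
  ∃ (d : ℕ) (G : Subgroup (Equiv.Perm (Fin d))), d = 2 * Nat.card H ∧ IsC2Wreath H G ∧
    ∀ i j : Fin d, ∃ g ∈ G, g i = j

/-- The wreath product `A ≀ S_n = A ^ n ⋊ S_n`. -/
abbrev Wreath (A : Type) [Group A] (n : ℕ) : Type :=
  (Fin n → A) ⋊[mulAutArrow] Equiv.Perm (Fin n)

/-- The coordinatewise action of `Γ` on `A ≀ S_n` which is given by an action `φ` of `Γ` on `A`. -/
abbrev coordAct {Γ A : Type} [Group Γ] [Group A] (φ : Γ →* MulAut A) (n : ℕ) :
    Γ →* MulAut (Wreath A n) :=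
  Pool.Agent.H391R2.T4.wrAct φ n

/-- The group of all `((f, σ), ρ)` in `(A ≀ S_n) ⋊ Γ` with `∏ [f i] = 1` and `sign σ = χ ρ`. -/
def LowSub {Γ A : Type} [Group Γ] [Group A] (φ : Γ →* MulAut A) (χ : Γ →* ℤˣ) (n : ℕ) :
    Subgroup (Wreath A n ⋊[coordAct φ n] Γ) where
  carrier := {z | ∏ i, Abelianization.of (z.left.left i) = 1 ∧
    Equiv.Perm.sign z.left.right = χ z.right}
  mul_mem' := (Pool.Agent.R367.IG.TwNO φ χ n).mul_mem'
  one_mem' := (Pool.Agent.R367.IG.TwNO φ χ n).one_mem'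
  inv_mem' := (Pool.Agent.R367.IG.TwNO φ χ n).inv_mem'

/-- The group `E`. -/
def Low {Γ A : Type} [Group Γ] [Group A] (φ : Γ →* MulAut A) (χ : Γ →* ℤˣ) (n : ℕ) : Type :=
  LowSub φ χ n

/-- Its group structure. -/
instance instLow {Γ A : Type} [Group Γ] [Group A] (φ : Γ →* MulAut A) (χ : Γ →* ℤˣ) (n : ℕ) :
    Group (Low φ χ n) :=
  (LowSub φ χ n).toGroup

/-- The projection of `E` onto `Γ`. -/
def proj {Γ A : Type} [Group Γ] [Group A] (φ : Γ →* MulAut A) (χ : Γ →* ℤˣ) (n : ℕ) :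
    Low φ χ n →* Γ :=
  (SemidirectProduct.rightHom : Wreath A n ⋊[coordAct φ n] Γ →* Γ).comp (LowSub φ χ n).subtype

/-- For a homomorphism `α : E → Γ`, the group of all `(x, ρ)`, `x` in `E ≀ A_r` and `ρ` in `Γ`, such
that `α` maps all coordinates of `x` to `ρ`. -/
def Fibre {Γ E : Type} [Group Γ] [Group E] (α : E →* Γ) (r : ℕ) : Subgroup (Wreath E r × Γ) where
  carrier := {z | (∀ i, α (z.1.left i) = z.2) ∧ Equiv.Perm.sign z.1.right = 1}
  mul_mem' := (Pool.Agent.Y793.AltEP α r).mul_mem'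
  one_mem' := (Pool.Agent.Y793.AltEP α r).one_mem'
  inv_mem' := (Pool.Agent.Y793.AltEP α r).inv_mem'

/-- The group `H`: all `(x, ρ)`, `x` in `E ≀ A_r` and `ρ` in `Γ`, such that all coordinates of `x` lie
above `ρ`. -/
def Tower {Γ A : Type} [Group Γ] [Group A] (φ : Γ →* MulAut A) (χ : Γ →* ℤˣ) (n r : ℕ) : Type :=
  Fibre (proj φ χ n) r

/-- Its group structure. -/
instance instTower {Γ A : Type} [Group Γ] [Group A] (φ : Γ →* MulAut A) (χ : Γ →* ℤˣ) (n r : ℕ) :
    Group (Tower φ χ n r) :=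
  (Fibre (proj φ χ n) r).toGroup

/-- The group `C₂ ≀ H` exists, and is transitive. -/
theorem exists_group (H : Type) [Group H] [Finite H] : Exists2 H := by
  unfold Exists2
  have hcard : Nat.card (H × Bool) = 2 * Nat.card H := by
    rw [Nat.card_prod, mul_comm]
    simp
  let f : Fin (2 * Nat.card H) ≃ H × Bool := (Finite.equivFinOfCardEq hcard).symm
  let G : Subgroup (Equiv.Perm (Fin (2 * Nat.card H))) :=
    { carrier := {π | ∃ h : H, ∀ i, (f (π i)).1 = h * (f i).1}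
      one_mem' := ⟨1, fun i => by simp⟩
      mul_mem' := by
        rintro π ρ ⟨h, hh⟩ ⟨h', hh'⟩
        refine ⟨h * h', fun i => ?_⟩
        rw [Equiv.Perm.mul_apply, hh, hh', mul_assoc]
      inv_mem' := by
        rintro π ⟨h, hh⟩
        refine ⟨h⁻¹, fun i => ?_⟩
        have h1 := hh (π⁻¹ i)
        rw [show π (π⁻¹ i) = i from π.apply_symm_apply i] at h1
        rw [h1, inv_mul_cancel_left] }
  refine ⟨2 * Nat.card H, G, rfl, ⟨f, fun π => Iff.rfl⟩, fun i j => ?_⟩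
  let t : Equiv.Perm (H × Bool) :=
    (Equiv.mulLeft ((f j).1 * (f i).1⁻¹)).prodCongr (Equiv.swap (f i).2 (f j).2)
  refine ⟨f.trans (t.trans f.symm), ⟨(f j).1 * (f i).1⁻¹, fun x => ?_⟩, ?_⟩
  · simp [t]
  · change f.symm (t (f i)) = j
    rw [Equiv.symm_apply_eq]
    exact Prod.ext (by simp [t]) (by simp [t])

theorem a_eq {H : Type} [Group H] [Finite H] {d : ℕ} {G : Subgroup (Equiv.Perm (Fin d))}
    (hG : IsC2Wreath H G) : a G = 1 := by
  have h := Pool.Agent.TH444.ML.least_ind (H := H) hG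
  have h2 : sInf {j : ℕ | ∃ g ∈ G, g ≠ 1 ∧ j = ind g} = 1 := h.csInf_eq
  unfold a
  rw [h2]
  simp

theorem of_data (K : Type) [Field K] [NumberField K] (H : Type) [Group H] [Finite H]
    (h2 : 2 ≤ Nat.card H) (U : Subgroup H) (hU : U.normalCore = ⊥)
    (hc : 8 * U.index * (U.index + 1) ≤ Nat.card H)
    (hne : (Pool.Agent.TH444.ML.Gal K (AlgebraicClosure K) H).Nonempty) :
    MalleOrderTwo K H := by
  intro d G hG
  obtain ⟨-, c, hc0, hlim⟩ :=
    Pool.Agent.TH444.ML.asymp Pool.Agent.TH444.ML.rest K H h2 U hU hc hne G hG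
  have ha := a_eq hG
  refine ⟨ha, ?_⟩
  unfold Malle
  rw [ha]
  have hlim' : Tendsto (fun X : ℝ => (N K d G X : ℝ) / X) atTop (nhds c) := hlim
  refine ⟨⟨c, hc0, by simpa using hlim'⟩, ⟨c / 2, by positivity, ?_⟩, ?_⟩
  · have h := (hlim'.eventually (lt_mem_nhds (by linarith : c / 2 < c))).and
      (eventually_gt_atTop (0 : ℝ))
    obtain ⟨X₀, hX₀⟩ := eventually_atTop.1 h
    refine ⟨X₀, fun X hX => ?_⟩
    obtain ⟨h3, h4⟩ := hX₀ X hX
    rw [lt_div_iff₀ h4] at h3
    rw [Real.rpow_one]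
    exact h3.le
  · intro ε hε
    refine ⟨2 * c, by positivity, ?_⟩
    have h := (hlim'.eventually (gt_mem_nhds (by linarith : c < 2 * c))).and
      (eventually_ge_atTop (1 : ℝ))
    obtain ⟨X₀, hX₀⟩ := eventually_atTop.1 h
    refine ⟨X₀, fun X hX => ?_⟩
    obtain ⟨h3, h4⟩ := hX₀ X hX
    have h5 : (0 : ℝ) < X := by linarith
    rw [div_lt_iff₀ h5] at h3
    refine h3.trans_le ?_
    apply mul_le_mul_of_nonneg_left _ (by positivity)
    calc X = X ^ (1 : ℝ) := (Real.rpow_one X).symm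
      _ ≤ X ^ (1 + ε) := Real.rpow_le_rpow_of_exponent_le h4 (by linarith)

end Pool.Agent.Results.MP_af4c59_nt.RelativeCommutatorTowers

open Pool.Agent.Results.MP_af4c59_nt.RelativeCommutatorTowers in
/-- Let `K` be a number field and `L` a finite Galois extension of `K`. Malle's conjecture holds over
`K` for `C₂ ≀ H`, `H` the extension `Tower φ χ n r` of `Gal(L/K)` by `P ≀ A_r`, for all `A`, `φ`, `χ`, all
`n ≥ ((3 |A| + 2)!) ^ 3` and all large `r = 8 k + 4`. The group `C₂ ≀ H` exists and is transitive. -/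
theorem Pool.Agent.Results.MP_af4c59_nt.RelativeCommutatorTowers.result :
    ∀ (K L : Type) [Field K] [NumberField K] [Field L] [Algebra K L] [FiniteDimensional K L]
      [IsGalois K L] (A : Type) [Group A] [Finite A] (φ : (L ≃ₐ[K] L) →* MulAut A)
      (χ : (L ≃ₐ[K] L) →* ℤˣ) (n : ℕ), ((3 * Nat.card A + 2).factorial) ^ 3 ≤ n →
      ∃ k₀ : ℕ, ∀ k ≥ k₀, MalleOrderTwo K (Tower φ χ n (8 * k + 4)) ∧
        Exists2 (Tower φ χ n (8 * k + 4)) := by
  intro K L _ _ _ _ _ _ A _ _ φ χ n hn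
  obtain ⟨k₀, h2⟩ := Pool.Agent.R630.ML.above_real K L A φ χ n hn
  refine ⟨k₀, fun k hk => ?_⟩
  obtain ⟨hf, hc, ⟨U, hU, hi⟩, hr⟩ := h2 k hk
  exact ⟨@of_data K _ _ (Tower φ χ n (8 * k + 4)) _ hf hc U hU hi hr,
    @exists_group (Tower φ χ n (8 * k + 4)) _ hf⟩
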