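import Mathlib
import Pool.Agent.R70.MA.Univ

/-!
# Malle's conjecture for `C₂ ≀ H` over base fields of every large degree

For every `B` there is `n₀` such that for every `n ≥ n₀` every number field `k₀` has an extension
`k` of degree `n`, without intermediate fields, such that Malle's conjecture (the asymptotic formula
and the weak form) holds over `k` for `C₂ ≀ H`, for all the finite groups `H` of order at most `B`
at once which have a subgroup `U` of index `u` with trivial normal core and `8 u (u + 1) ≤ |H|`.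
In particular `k` can be chosen of degree a power of `p` over `k₀`, for every prime `p`.

The proof: let `A` be the product of all subgroups of `S_B` and `M/k₀` a Galois extension with group
`A ≀ S_n` (starting library). The stabilizer of a point is maximal, of index `n`, and has `A`, and so
every group of order at most `B`, as a quotient.
-/

set_option autoImplicit false

open Filter

namespace Pool.Agent.Results.MP_af4c59_nt.EveryLargeDegree

/-- `G ≤ S_n` is, up to a bijection `f` of `{1, ..., n}` with `H × {0, 1}`, the wreath product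
`C₂ ≀ H`: it consists of all permutations `π` for which there is `h ∈ H` such that `π` maps the block
`{x} × {0, 1}` to the block `{h x} × {0, 1}`, for all `x ∈ H`. -/
def IsC2Wreath (H : Type) [Group H] {n : ℕ} (G : Subgroup (Equiv.Perm (Fin n))) : Prop :=
  ∃ f : Fin n ≃ H × Bool, ∀ π : Equiv.Perm (Fin n), π ∈ G ↔ ∃ h : H, ∀ i, (f (π i)).1 = h * (f i).1

/-- The index of a permutation: `n` minus the number of its cycles, fixed points included. -/
def ind {n : ℕ} (g : Equiv.Perm (Fin n)) : ℕ := g.cycleType.sum - Multiset.card g.cycleType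

/-- `a(G) = 1 / min ind(g)`, the minimum over the `g ≠ 1` in `G`. -/
noncomputable def a {n : ℕ} (G : Subgroup (Equiv.Perm (Fin n))) : ℝ :=
  1 / (sInf {j : ℕ | ∃ g ∈ G, g ≠ 1 ∧ j = ind g} : ℕ)

/-- `N_{n,K}(X; G)`: the number of fields `L` between `K` and its algebraic closure, of degree `n`
over `K`, whose Galois group, acting on the embeddings, is `G` (up to numbering), and whose relative
discriminant has norm at most `X` (that is, `|d_L| ≤ X |d_K| ^ n`). -/
noncomputable def N (K : Type) [Field K] [NumberField K] (n : ℕ)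
    (G : Subgroup (Equiv.Perm (Fin n))) (X : ℝ) : ℕ :=
  Set.ncard {L : IntermediateField K (AlgebraicClosure K) |
    Module.finrank K L = n ∧
    (∃ e : (L →ₐ[K] AlgebraicClosure K) ≃ Fin n, ∀ π : Equiv.Perm (Fin n),
      π ∈ G ↔ ∃ σ : AlgebraicClosure K ≃ₐ[K] AlgebraicClosure K,
        ∀ φ : L →ₐ[K] AlgebraicClosure K, e (σ.toAlgHom.comp φ) = π (e φ)) ∧
    ∃ h : NumberField L,
      ((|@NumberField.discr L _ h| : ℤ) : ℝ) ≤ X * ((|NumberField.discr K| : ℤ) : ℝ) ^ n}

/-- Malle's conjecture for `(K, G)`: the asymptotic formula `N_{n,K}(X; G) ~ c X ^ a(G)` (so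
`b(K, G) = 1`), and the inequalities of the weak form. -/
def Malle (K : Type) [Field K] [NumberField K] (n : ℕ) (G : Subgroup (Equiv.Perm (Fin n))) :
    Prop :=
  (∃ c : ℝ, 0 < c ∧ Tendsto (fun X : ℝ => (N K n G X : ℝ) / X ^ a G) atTop (nhds c)) ∧
  (∃ c₁ : ℝ, 0 < c₁ ∧ ∃ X₀ : ℝ, ∀ X : ℝ, X₀ ≤ X → c₁ * X ^ a G ≤ N K n G X) ∧
  (∀ ε : ℝ, 0 < ε → ∃ c₂ : ℝ, 0 < c₂ ∧ ∃ X₀ : ℝ, ∀ X : ℝ, X₀ ≤ X →
    (N K n G X : ℝ) < c₂ * X ^ (a G + ε))

/-- `H` has a subgroup `U` of index `u` with trivial normal core and `8 u (u + 1) ≤ |H|`. -/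
def SmallIndex (H : Type) [Group H] : Prop :=
  ∃ U : Subgroup H, U.normalCore = ⊥ ∧ 8 * U.index * (U.index + 1) ≤ Nat.card H

theorem a_eq {H : Type} [Group H] [Finite H] {n : ℕ} {G : Subgroup (Equiv.Perm (Fin n))}
    (hG : IsC2Wreath H G) : a G = 1 := by
  have h := Pool.Agent.TH444.ML.least_ind (H := H) hG
  have h2 : sInf {j : ℕ | ∃ g ∈ G, g ≠ 1 ∧ j = ind g} = 1 := h.csInf_eq
  unfold a
  rw [h2]
  simp

theorem of_data (K : Type) [Field K] [NumberField K] (H : Type) [Group H] [Finite H]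
    (h2 : 2 ≤ Nat.card H) (U : Subgroup H) (hU : U.normalCore = ⊥)
    (hc : 8 * U.index * (U.index + 1) ≤ Nat.card H)
    (hne : (Pool.Agent.TH444.ML.Gal K (AlgebraicClosure K) H).Nonempty) (n : ℕ)
    (G : Subgroup (Equiv.Perm (Fin n))) (hG : IsC2Wreath H G) : Malle K n G := by
  obtain ⟨-, c, hc0, hlim⟩ :=
    Pool.Agent.TH444.ML.asymp Pool.Agent.TH444.ML.rest K H h2 U hU hc hne G hG
  have ha := a_eq hG
  unfold Malle
  rw [ha]
  have hlim' : Tendsto (fun X : ℝ => (N K n G X : ℝ) / X) atTop (nhds c) := hlim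
  refine ⟨⟨c, hc0, by simpa using hlim'⟩, ⟨c / 2, by positivity, ?_⟩, ?_⟩
  · have h := (hlim'.eventually (lt_mem_nhds (by linarith : c / 2 < c))).and
      (eventually_gt_atTop (0 : ℝ))
    obtain ⟨X₀, hX₀⟩ := eventually_atTop.1 h
    refine ⟨X₀, fun X hX => ?_⟩
    obtain ⟨h3, h4⟩ := hX₀ X hX
    rw [lt_div_iff₀ h4] at h3
    rw [Real.rpow_one]
    exact h3.le
  · intro ε hε
    refine ⟨2 * c, by positivity, ?_⟩
    have h := (hlim'.eventually (gt_mem_nhds (by linarith : c < 2 * c))).and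
      (eventually_ge_atTop (1 : ℝ))
    obtain ⟨X₀, hX₀⟩ := eventually_atTop.1 h
    refine ⟨X₀, fun X hX => ?_⟩
    obtain ⟨h3, h4⟩ := hX₀ X hX
    have h5 : (0 : ℝ) < X := by linarith
    rw [div_lt_iff₀ h5] at h3
    refine h3.trans_le ?_
    apply mul_le_mul_of_nonneg_left _ (by positivity)
    calc X = X ^ (1 : ℝ) := (Real.rpow_one X).symm
      _ ≤ X ^ (1 + ε) := Real.rpow_le_rpow_of_exponent_le h4 (by linarith)

/-- The group `C₂ ≀ H` exists and is transitive. -/
theorem exists_group (H : Type) [Group H] [Finite H] :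
    ∃ G : Subgroup (Equiv.Perm (Fin (2 * Nat.card H))), IsC2Wreath H G ∧
      ∀ i j, ∃ g ∈ G, g i = j := by
  classical
  have : Fintype H := Fintype.ofFinite H
  have hcard : Fintype.card (Fin (2 * Nat.card H)) = Fintype.card (H × Bool) := by
    rw [Fintype.card_fin, Fintype.card_prod, Fintype.card_bool, Nat.card_eq_fintype_card, mul_comm]
  let f : Fin (2 * Nat.card H) ≃ H × Bool := Fintype.equivOfCardEq hcard
  let G : Subgroup (Equiv.Perm (Fin (2 * Nat.card H))) :=
    { carrier := {π | ∃ h : H, ∀ i, (f (π i)).1 = h * (f i).1}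
      mul_mem' := by
        rintro π τ ⟨h, hh⟩ ⟨g, hg⟩
        refine ⟨h * g, fun i => ?_⟩
        rw [Equiv.Perm.mul_apply, hh, hg, mul_assoc]
      one_mem' := ⟨1, fun i => by simp⟩
      inv_mem' := by
        rintro π ⟨h, hh⟩
        refine ⟨h⁻¹, fun i => ?_⟩
        have h1 := hh (π⁻¹ i)
        rw [show π (π⁻¹ i) = i from π.apply_symm_apply i] at h1
        rw [h1, inv_mul_cancel_left] }
  refine ⟨G, ⟨f, fun π => Iff.rfl⟩, fun i j => ?_⟩
  let h : H := (f j).1 * (f i).1⁻¹
  let s : Equiv.Perm (H × Bool) :=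
    Equiv.prodCongr (Equiv.mulLeft h) (Equiv.swap (f i).2 (f j).2)
  refine ⟨(f.trans s).trans f.symm, ⟨h, fun l => ?_⟩, ?_⟩
  · change (f (f.symm (s (f l)))).1 = _
    rw [Equiv.apply_symm_apply]
    rfl
  · change f.symm (s (f i)) = j
    rw [Equiv.symm_apply_eq]
    apply Prod.ext
    · change h * (f i).1 = _
      exact inv_mul_cancel_right _ _
    · change Equiv.swap (f i).2 (f j).2 (f i).2 = _
      rw [Equiv.swap_apply_left]

end Pool.Agent.Results.MP_af4c59_nt.EveryLargeDegree

open Pool.Agent.Results.MP_af4c59_nt.EveryLargeDegree in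
/-- For all `n` large in terms of `B` every number field `k₀` has an extension `k` of degree `n`,
without fields strictly between `k₀` and `k`, over which Malle's conjecture holds for `C₂ ≀ H` for
all groups `H` of order at most `B` with a core-free subgroup of small index. The last part says
that the groups `C₂ ≀ H` exist as transitive permutation groups and that `a(G) = 1` for them. -/
theorem Pool.Agent.Results.MP_af4c59_nt.EveryLargeDegree.result :
    (∀ B : ℕ, ∃ n₀ : ℕ, ∀ n : ℕ, n₀ ≤ n → ∀ (k₀ : Type) [Field k₀] [NumberField k₀],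
      ∃ (k : Type) (_ : Field k) (_ : NumberField k) (_ : Algebra k₀ k),
        Module.finrank k₀ k = n ∧ (∀ E : IntermediateField k₀ k, E = ⊥ ∨ E = ⊤) ∧
        ∀ (H : Type) [Group H] [Finite H], Nat.card H ≤ B → SmallIndex H →
          ∀ (m : ℕ) (G : Subgroup (Equiv.Perm (Fin m))), IsC2Wreath H G → Malle k m G) ∧
    (∀ (H : Type) [Group H] [Finite H],
      (∃ G : Subgroup (Equiv.Perm (Fin (2 * Nat.card H))), IsC2Wreath H G ∧
        ∀ i j, ∃ g ∈ G, g i = j) ∧
      ∀ (m : ℕ) (G : Subgroup (Equiv.Perm (Fin m))), IsC2Wreath H G → a G = 1) := by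
  refine ⟨fun B => ⟨((3 * Nat.card (Pool.Agent.R70.MA.AB B) + 2).factorial) ^ 3,
    fun n hn k₀ _ _ => ?_⟩, fun H _ _ => ⟨exists_group H, fun m G hG => a_eq hG⟩⟩
  obtain ⟨k, i1, i2, i3, h1, h2, h3⟩ := Pool.Agent.R70.MA.exists_field B n hn k₀
  refine ⟨k, i1, i2, i3, h1, h2, ?_⟩
  rintro H _ _ hH ⟨U, hU, hc⟩ m G hG
  have h4 : 1 ≤ U.index := Nat.one_le_iff_ne_zero.2 Subgroup.index_ne_zero_of_finite
  have h5 : 2 ≤ Nat.card H := by nlinarith
  exact of_data k H h5 U hU hc (h3 H hH) m G hG
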